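import Pool.Agent.Y642.ND.Stm3

/-!
# ND-CELL: cells on the real line for the powers
-/

set_option autoImplicit false

namespace Pool.Agent.Y983.ND

open Finset

lemma log32 : (0.4 : ℝ) ≤ Real.log (3 / 2) := by
  have h1 : Real.log ((3 / 2 : ℝ) ^ 5) = 5 * Real.log (3 / 2) := by
    rw [Real.log_pow]; norm_num
  have h2 : Real.exp 2 ≤ (3 / 2 : ℝ) ^ 5 := by
    have h3 : Real.exp 2 = Real.exp 1 ^ 2 := by
      rw [← Real.exp_nat_mul]; norm_num
    rw [h3]
    have h4 := Real.exp_one_lt_d9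
    have h5 := Real.exp_pos 1
    calc Real.exp 1 ^ 2 ≤ (2.7182818286 : ℝ) ^ 2 := pow_le_pow_left₀ h5.le h4.le 2
      _ ≤ _ := by norm_num
  have h3 : (2 : ℝ) ≤ Real.log ((3 / 2 : ℝ) ^ 5) := by
    have h4 := Real.log_le_log (Real.exp_pos 2) h2
    rwa [Real.log_exp] at h4
  rw [h1] at h3
  linarith

lemma pow_le_three (M m : ℕ) (hm : m ≤ M) {y : ℝ} (hy0 : 0 ≤ y) (hy : y ≤ 1 + 1 / ((M : ℝ) + 1)) :
    y ^ m ≤ 3 := by
  have hM : (0 : ℝ) < (M : ℝ) + 1 := by positivity
  have h1 : (1 : ℝ) ≤ 1 + 1 / ((M : ℝ) + 1) := by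
    have : 0 < 1 / ((M : ℝ) + 1) := by positivity
    linarith
  have h2 : y ^ m ≤ (1 + 1 / ((M : ℝ) + 1)) ^ M :=
    (pow_le_pow_left₀ hy0 hy m).trans (pow_le_pow_right₀ h1 hm)
  have h3 : (1 + 1 / ((M : ℝ) + 1)) ^ M ≤ Real.exp (1 / ((M : ℝ) + 1)) ^ M := by
    refine pow_le_pow_left₀ (by linarith) ?_ M
    have := Real.add_one_le_exp (1 / ((M : ℝ) + 1))
    linarith
  have h4 : Real.exp (1 / ((M : ℝ) + 1)) ^ M ≤ Real.exp 1 := by
    rw [← Real.exp_nat_mul]
    apply Real.exp_le_exp.mpr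
    rw [mul_one_div, div_le_one hM]
    linarith
  have h5 := Real.exp_one_lt_d9
  linarith

lemma term_bound (M m k : ℕ) (hm : m ≤ M) (z a : ℝ)
    (h : |a| + 4 * |z - a| ≤ 1 + 1 / ((M : ℝ) + 1)) :
    |(z - a) ^ k * ((m.choose k : ℝ) * a ^ (m - k))| ≤ 3 / 4 ^ k := by
  rcases lt_or_ge m k with hk | hk
  · rw [Nat.choose_eq_zero_of_lt hk]
    simp only [Nat.cast_zero, zero_mul, mul_zero, abs_zero]
    positivity
  have h0 : 0 ≤ |a| + 4 * |z - a| := by positivity
  have h1 := pow_le_three M m hm h0 h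
  rw [le_div_iff₀ (by positivity)]
  refine le_trans ?_ h1
  have h2 : (|a| + 4 * |z - a|) ^ m =
      ∑ j ∈ range (m + 1), (4 * |z - a|) ^ j * |a| ^ (m - j) * (m.choose j : ℝ) := by
    rw [add_comm, add_pow]
  rw [h2]
  have h3 : |(z - a) ^ k * ((m.choose k : ℝ) * a ^ (m - k))| * 4 ^ k =
      (4 * |z - a|) ^ k * |a| ^ (m - k) * (m.choose k : ℝ) := by
    rw [abs_mul, abs_mul, abs_pow, abs_pow, mul_pow, Nat.abs_cast]
    ring
  rw [h3]
  exact Finset.single_le_sum (f := fun j => (4 * |z - a|) ^ j * |a| ^ (m - j) * (m.choose j : ℝ))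
    (fun j _ => by positivity) (Finset.mem_range.mpr (by omega))

lemma expand (M m : ℕ) (hm : m ≤ M) (z a : ℝ) :
    z ^ m = ∑ k ∈ range (M + 1), (z - a) ^ k * ((m.choose k : ℝ) * a ^ (m - k)) := by
  have h1 : z ^ m = ((z - a) + a) ^ m := by ring
  rw [h1, add_pow]
  have h2 : range (m + 1) ⊆ range (M + 1) := Finset.range_subset_range.mpr (by omega)
  rw [← Finset.sum_subset h2]
  · refine Finset.sum_congr rfl fun k _ => ?_
    ring
  · intro k _ hk
    have : m < k := by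
      by_contra h
      exact hk (Finset.mem_range.mpr (by omega))
    rw [Nat.choose_eq_zero_of_lt this]
    simp

/-- the centre of a cell -/
noncomputable def cen (M i : ℕ) : ℝ := 1 + 1 / ((M : ℝ) + 1) - 6 / 5 * ((3 / 2) ^ i * (1 / ((M : ℝ) + 1)))

lemma cell_exists (M : ℕ) (y : ℝ) (hy0 : 0 ≤ y) (hy1 : y ≤ 1) :
    ∃ i : ℕ, (i : ℝ) ≤ Real.log (M + 2) / Real.log (3 / 2) ∧
      |cen M i| + 4 * |y - cen M i| ≤ 1 + 1 / ((M : ℝ) + 1) := by
  set η : ℝ := 1 / ((M : ℝ) + 1) with hη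
  have hM : (0 : ℝ) < (M : ℝ) + 1 := by positivity
  have hη0 : 0 < η := by positivity
  set u : ℝ := 1 + η - y with hu
  have hu0 : η ≤ u := by rw [hu]; linarith
  have hu1 : u ≤ 1 + η := by rw [hu]; linarith
  have h1 : 1 ≤ u / η := by rw [le_div_iff₀ hη0]; linarith
  obtain ⟨i, hi1, hi2⟩ := exists_nat_pow_near h1 (show (1 : ℝ) < 3 / 2 by norm_num)
  rw [le_div_iff₀ hη0] at hi1
  rw [div_lt_iff₀ hη0, pow_succ] at hi2
  refine ⟨i, ?_, ?_⟩
  · have hl := log32
    rw [le_div_iff₀ (by linarith), ← Real.log_pow]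
    apply Real.log_le_log (by positivity)
    have h2 : (3 / 2 : ℝ) ^ i * η ≤ 1 + η := hi1.trans hu1
    have h3 : (1 + η) = (M + 2) * η := by
      rw [hη]
      field_simp
      ring
    rw [h3] at h2
    exact le_of_mul_le_mul_right h2 hη0
  · set t : ℝ := (3 / 2 : ℝ) ^ i * η with ht
    have ht0 : 0 < t := by positivity
    have h2 : u < 3 / 2 * t := by
      rw [ht]
      linarith
    have hcen : cen M i = 1 + η - 6 / 5 * t := rfl
    have hy : y = 1 + η - u := by rw [hu]; ring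
    rw [hcen, hy]
    have h3 : 1 + η - u - (1 + η - 6 / 5 * t) = 6 / 5 * t - u := by ring
    rw [h3]
    rcases le_total (6 / 5 * t) (1 + η) with h | h
    · rw [abs_of_nonneg (by linarith : (0 : ℝ) ≤ 1 + η - 6 / 5 * t)]
      have h4 : |6 / 5 * t - u| ≤ 3 / 10 * t := by
        rw [abs_le]
        constructor <;> linarith
      linarith
    · rw [abs_of_nonpos (by linarith : 1 + η - 6 / 5 * t ≤ (0 : ℝ)),
        abs_of_nonneg (by linarith : (0 : ℝ) ≤ 6 / 5 * t - u)]
      linarith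


/-- the largest index of a cell -/
noncomputable def II (M : ℕ) : ℕ := ⌊Real.log (M + 2) / Real.log (3 / 2)⌋₊

open Classical in
/-- the index of the cell -/
noncomputable def ci (M : ℕ) (y : ℝ) : Fin (II M + 1) :=
  if h : 0 ≤ y ∧ y ≤ 1 then ⟨(cell_exists M y h.1 h.2).choose, by
    have h1 := (cell_exists M y h.1 h.2).choose_spec.1
    have h2 := Nat.le_floor h1
    exact Nat.lt_succ_of_le h2⟩ else 0

lemma ci_spec (M : ℕ) (y : ℝ) (h0 : 0 ≤ y) (h1 : y ≤ 1) :
    |cen M (ci M y)| + 4 * |y - cen M (ci M y)| ≤ 1 + 1 / ((M : ℝ) + 1) := by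
  unfold ci
  rw [dif_pos ⟨h0, h1⟩]
  exact (cell_exists M y h0 h1).choose_spec.2

lemma II_le (M : ℕ) : (4 * (II M + 1) : ℝ) ≤ 16 * Real.log (M + 2) := by
  have hl := log32
  have h0 : 0 ≤ Real.log (M + 2) := Real.log_nonneg (by
    have : (0 : ℝ) ≤ M := Nat.cast_nonneg M
    linarith)
  have h1 : (II M : ℝ) ≤ Real.log (M + 2) / Real.log (3 / 2) :=
    Nat.floor_le (div_nonneg h0 (by linarith))
  have h2 : Real.log (M + 2) / Real.log (3 / 2) ≤ Real.log (M + 2) / 0.4 :=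
    div_le_div_of_nonneg_left h0 (by norm_num) hl
  have h3 : Real.log 2 ≤ Real.log (M + 2) := Real.log_le_log (by norm_num) (by
    have : (0 : ℝ) ≤ M := Nat.cast_nonneg M
    linarith)
  have h4 := Real.log_two_gt_d9
  have h5 : Real.log (M + 2) / 0.4 = 2.5 * Real.log (M + 2) := by ring
  rw [h5] at h2
  linarith

/-- the point of the unit interval -/
noncomputable def zz (x : ℝ) : ℝ := if |x| ≤ 1 then x else x⁻¹

/-- a sign -/
def sg (b : Bool) : ℝ := if b then -1 else 1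

lemma sg_abs (b : Bool) : |sg b| = 1 := by
  cases b <;> simp [sg]

lemma sg_mul_abs (y : ℝ) : sg (decide (y < 0)) * |y| = y := by
  unfold sg
  by_cases h : y < 0
  · simp [h, abs_of_neg h]
  · simp [h, abs_of_nonneg (not_lt.mp h)]

lemma zz_abs_le (x : ℝ) : |zz x| ≤ 1 := by
  unfold zz
  split_ifs with h
  · exact h
  · rw [abs_inv]
    exact inv_le_one_of_one_le₀ (not_le.mp h).le

/-- labels -/
abbrev Lab (M : ℕ) : Type := Bool × Bool × Fin (II M + 1)

/-- the label of a real number -/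
noncomputable def lb (M : ℕ) (x : ℝ) : Lab M :=
  (decide (1 < |x|), decide (zz x < 0), ci M |zz x|)

/-- the centre -/
noncomputable def ctr {M : ℕ} (l : Lab M) : ℝ := sg l.2.1 * cen M l.2.2

lemma ctr_spec (M : ℕ) (x : ℝ) :
    |ctr (lb M x)| + 4 * |zz x - ctr (lb M x)| ≤ 1 + 1 / ((M : ℝ) + 1) := by
  have h1 := ci_spec M |zz x| (abs_nonneg _) (zz_abs_le x)
  set a := cen M (ci M |zz x|) with ha
  have h2 : ctr (lb M x) = sg (decide (zz x < 0)) * a := rfl
  have h3 : zz x - ctr (lb M x) = sg (decide (zz x < 0)) * (|zz x| - a) := by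
    rw [h2, mul_sub, sg_mul_abs]
  rw [h3, h2, abs_mul, abs_mul, sg_abs, one_mul, one_mul]
  exact h1

/-- coefficients -/
noncomputable def cf {M : ℕ} (l : Lab M) (k m : ℕ) : ℝ :=
  if l.1 then sg l.2.1 ^ M * (((M - m).choose k : ℝ) * ctr l ^ (M - m - k))
  else (m.choose k : ℝ) * ctr l ^ (m - k)

theorem main (M : ℕ) (x : ℝ) (m : ℕ) (hm : m ≤ M) :
    x ^ m = (max 1 |x|) ^ M *
      ∑ k ∈ range (M + 1), (zz x - ctr (lb M x)) ^ k * cf (lb M x) k m := by
  rcases le_or_gt |x| 1 with h | h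
  · have h1 : (lb M x).1 = false := by simp [lb, h.not_gt]
    have h2 : zz x = x := by rw [zz, if_pos h]
    have h3 : ∀ k, cf (lb M x) k m = (m.choose k : ℝ) * ctr (lb M x) ^ (m - k) := by
      intro k
      rw [cf, h1]
      rfl
    simp only [h3]
    rw [max_eq_left h, one_pow, one_mul, ← expand M m hm, h2]
  · have h1 : (lb M x).1 = true := by simp [lb, h]
    have h2 : zz x = x⁻¹ := by rw [zz, if_neg h.not_ge]
    have hx : x ≠ 0 := by
      intro h0
      rw [h0, abs_zero] at h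
      linarith
    set s := sg (decide (zz x < 0)) with hs
    have h3 : ∀ k, cf (lb M x) k m =
        s ^ M * (((M - m).choose k : ℝ) * ctr (lb M x) ^ (M - m - k)) := by
      intro k
      rw [cf, h1]
      rfl
    have h4 : ∑ k ∈ range (M + 1), (zz x - ctr (lb M x)) ^ k * cf (lb M x) k m =
        s ^ M * zz x ^ (M - m) := by
      rw [expand M (M - m) (Nat.sub_le _ _) (zz x) (ctr (lb M x)), Finset.mul_sum]
      refine Finset.sum_congr rfl fun k _ => ?_
      rw [h3]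
      ring
    rw [h4, max_eq_right h.le, ← mul_assoc, ← mul_pow]
    have h5 : |x| * s = x := by
      have h6 : decide (zz x < 0) = decide (x < 0) := by
        rw [h2]
        by_cases hx0 : x < 0
        · simp [hx0]
        · simp [hx0]
      rw [hs, h6, mul_comm, sg_mul_abs]
    rw [h5, h2]
    have h7 : x ^ M = x ^ m * x ^ (M - m) := by
      rw [← pow_add]
      congr 1
      omega
    rw [h7, mul_assoc, ← mul_pow, mul_inv_cancel₀ hx, one_pow, mul_one]

theorem size (M : ℕ) (x : ℝ) (m k : ℕ) (hm : m ≤ M) :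
    |(zz x - ctr (lb M x)) ^ k * cf (lb M x) k m| ≤ 3 / 4 ^ k := by
  have hc := ctr_spec M x
  rcases hb : (lb M x).1 with _ | _
  · have h3 : cf (lb M x) k m = (m.choose k : ℝ) * ctr (lb M x) ^ (m - k) := by
      rw [cf, hb]
      rfl
    rw [h3]
    exact term_bound M m k hm _ _ hc
  · have h3 : cf (lb M x) k m =
        sg (lb M x).2.1 ^ M * (((M - m).choose k : ℝ) * ctr (lb M x) ^ (M - m - k)) := by
      rw [cf, hb]
      rfl
    rw [h3, mul_left_comm, abs_mul, abs_pow, sg_abs, one_pow, one_mul]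
    exact term_bound M (M - m) k (Nat.sub_le _ _) _ _ hc

/-- ND-CELL -/
theorem t : Pool.Agent.Y642.ND.S_CELL := by
  intro M
  let e : Lab M ≃ Fin (Fintype.card (Lab M)) := Fintype.equivFin (Lab M)
  refine ⟨Fintype.card (Lab M), fun x => e (lb M x), fun x k => (zz x - ctr (lb M x)) ^ k,
    fun l k m => cf (e.symm l) k m, ?_, ?_⟩
  · have h1 : Fintype.card (Lab M) = 4 * (II M + 1) := by
      simp only [Fintype.card_prod, Fintype.card_bool, Fintype.card_fin]
      ring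
    rw [h1]
    push_cast
    exact II_le M
  · intro x m hm
    simp only [Equiv.symm_apply_apply]
    exact ⟨main M x m hm, fun k _ => size M x m k hm⟩

end Pool.Agent.Y983.ND
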